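import Mathlib
import Pool.Agent.NH29.AC.Fin9
import Pool.Agent.NH29.AC.Nrm
import Pool.Agent.NH29.AC.Cent
import Pool.Agent.NH29.AC.Orb
import Pool.Agent.NH29.AC.Grp
import Pool.Agent.NH29.AC.Cor3
import Pool.Agent.NH29.AC.Clo3

/-!
# The dynamical Lehmer conjecture for points over almost abelian extensions

Let `K` be a number field and `f` any rational map of the projective line of degree `d ≥ 2` over
`K`. Let `r`, `m`, `B` be positive integers, and `L` a number field which is a Galois extension of
some extension `K'` of `K` of degree at most `r`, such that in the Galois group of `L` over `K'` the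
`m`-th power of every element has at most `B` conjugates. Let `P` be a wandering point of `P^1(L)`
and `D = [K(P) : K]`.

* There is a constant `C'`, depending only on `f`, `r`, `m` and `B`, such that
  `ĥ_f(P) ≥ 1 / (C' * (1 + log D) ^ C')`.
* There is a constant `C`, depending only on `f`, such that, for `T = C * (r !) ^ 3 * m ^ 2 * B ^ r`,
  `ĥ_f(P) ≥ 1 / (T * (1 + log D)) ^ T ≥ 1 / D` if `(T * (1 + log D)) ^ T ≤ D`.
* For every prime number `p > T ^ 2` there is `δ > 0`, depending only on `f`, `r`, `m`, `B` and `p`,
  such that `ĥ_f(P) ≥ δ` if `p` does not divide `D`.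

Examples: the abelian extensions `L` of the extensions `K'` of `K` of degree at most `r`
(`m = B = 1`); the dihedral extensions of `K`; the Galois extensions of `K` whose Galois group has
bounded exponent, or a commutator subgroup of bounded order. In the second statement `L` may be any
Galois extension of `K` whose Galois group has an abelian normal subgroup of index `s`, where `s ^ 3`
is at most a small constant times `log D / log log D` (`r = 1`, `m = B = s`).

In particular the inequality `ĥ_f(P) ≥ c / [K(P) : K]` of the dynamical Lehmer conjecture holds for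
these points, for every `f`. There is no condition on the map (on its reductions) or on the
ramification of `L`.

The proof works at a prime `v` of `K` over a large prime number which does not divide
`[K(P) : K]`, of size polynomial in `1 + log [K(P) : K]`. In the Galois closure of `K(P)` over `K`
all powers with a suitable bounded exponent have a bounded number of conjugates; an argument on
permutation groups shows that such a prime number does not divide the order of the Galois group of
the closure, so the ramification at `v` is tame, and a bounded power of Frobenius commutes with a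
subgroup of bounded index of the inertia group. If the height of `P` is small, then the iterates `z`
of `P` (up to a multiple of `log N(v)` of them) satisfy algebraic relations over `K` with their
images under this power of Frobenius, and these relations are excluded by the bound for the
ramification, or by a comparison of degrees and heights.
-/

set_option autoImplicit false

namespace Pool.Agent.Results.MP_2194ec_nt.AlmostAbelianPoints

open MvPolynomial NumberField Module Filter Topology

/-- the map defined by a pair of forms over `K`, on coordinate vectors over an extension -/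
noncomputable def evalMap {K L : Type} [Field K] [Field L] [Algebra K L]
    (F : Fin 2 → MvPolynomial (Fin 2) K) (y : Fin 2 → L) : Fin 2 → L :=
  fun i => aeval y (F i)

/-- the point with coordinate vector `x` is wandering: its iterates are pairwise distinct points
of the projective line -/
def Wandering {K L : Type} [Field K] [Field L] [Algebra K L]
    (F : Fin 2 → MvPolynomial (Fin 2) K) (x : Fin 2 → L) : Prop :=
  ¬ ∃ m n : ℕ, m ≠ n ∧ ∃ c : L, c ≠ 0 ∧ (evalMap F)^[n] x = c • (evalMap F)^[m] x

/-- `h` is the canonical height of the point with coordinate vector `x` over the number field `L`: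
the limit of `h(F^n(x)) / d ^ n`, where `h` is the absolute logarithmic Weil height, that is
Mathlib's (relative) `Height.logHeight` divided by `[L : ℚ]` -/
def IsCanonicalHeight {K L : Type} [Field K] [Field L] [NumberField L] [Algebra K L]
    (F : Fin 2 → MvPolynomial (Fin 2) K) (d : ℕ) (x : Fin 2 → L) (h : ℝ) : Prop :=
  Tendsto (fun n : ℕ => Height.logHeight ((evalMap F)^[n] x) /
    ((finrank ℚ L : ℝ) * (d : ℝ) ^ n)) atTop (𝓝 h)

/-- the field `K(P)` generated over `K` by the ratios `x_i / x_j` of the coordinates of the point
`P` with coordinate vector `x` -/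
def fieldOfDefinition (K : Type) {L : Type} [Field K] [Field L] [Algebra K L]
    (x : Fin 2 → L) : IntermediateField K L :=
  IntermediateField.adjoin K (Set.range fun ij : Fin 2 × Fin 2 => x ij.1 / x ij.2)

/-- `L` is a Galois extension of an extension `K'` of `K` of degree at most `r`, and in the Galois
group of `L` over `K'` the `m`-th power of every element has at most `B` conjugates -/
def AlmostAbelian (K L : Type) [Field K] [Field L] [Algebra K L] (r m B : ℕ) : Prop :=
  ∃ K' : IntermediateField K L, finrank K K' ≤ r ∧ IsGalois K' L ∧
    ∀ σ : Gal(L/K'), (Set.range fun g : Gal(L/K') => g * σ ^ m * g⁻¹).ncard ≤ B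

/-- **Main result.** -/
theorem result (K : Type) [Field K] [NumberField K] (d : ℕ) (hd : 2 ≤ d)
    -- the rational map: a pair of forms of degree `d` without common zero
    (F : Fin 2 → MvPolynomial (Fin 2) K) (hF : ∀ i, (F i).IsHomogeneous d)
    (hmor : ∀ z : Fin 2 → AlgebraicClosure K, (∀ i, aeval z (F i) = 0) → z = 0) :
    -- the constant `C` depends on the map only
    ∃ C : ℕ, 0 < C ∧ ∀ r m B T : ℕ, 1 ≤ m → 1 ≤ B →
      T = C * r.factorial ^ 3 * m ^ 2 * B ^ r →
      -- the constant `C'` depends also on `r`, `m` and `B`
      (∃ C' : ℕ, 0 < C' ∧
        ∀ (L : Type) [Field L] [NumberField L] [Algebra K L], AlmostAbelian K L r m B →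
        ∀ x : Fin 2 → L, x ≠ 0 → Wandering F x →
        ∃ h : ℝ, IsCanonicalHeight F d x h ∧
          -- the bound for fixed `r`, `m` and `B`
          1 / ((C' : ℝ) * (1 + Real.log (finrank K (fieldOfDefinition K x))) ^ C') ≤ h ∧
          -- the uniform bound for all points of large degree
          (((T : ℝ) * (1 + Real.log (finrank K (fieldOfDefinition K x)))) ^ T ≤
              finrank K (fieldOfDefinition K x) →
            1 / ((T : ℝ) * (1 + Real.log (finrank K (fieldOfDefinition K x)))) ^ T ≤ h)) ∧
      -- the bound for the points of degree prime to a fixed prime number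
      ∀ p : ℕ, p.Prime → T ^ 2 < p → ∃ δ : ℝ, 0 < δ ∧
        ∀ (L : Type) [Field L] [NumberField L] [Algebra K L], AlmostAbelian K L r m B →
        ∀ x : Fin 2 → L, x ≠ 0 → Wandering F x →
        ¬ p ∣ finrank K (fieldOfDefinition K x) →
        ∃ h : ℝ, IsCanonicalHeight F d x h ∧ δ ≤ h := by
  obtain ⟨C, hC, h1⟩ := NH29.AC.main9 NH29.AC.nrm NH29.AC.con NH29.AC.orb NH29.AC.grp
    NH29.AC.clo3 NH29.AC.cor3 hd F hF hmor
  refine ⟨C, hC, fun r m B T hm hB hT => ?_⟩
  obtain ⟨⟨C', hC', h2⟩, h3⟩ := h1 r m B T hm hB hT
  refine ⟨⟨C', hC', fun L _ _ _ hL x hx hw => ?_⟩, fun p hp hTp => ?_⟩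
  · obtain ⟨K', hK', hG, hc⟩ := hL
    exact h2 L K' hK' hc x hx hw
  · obtain ⟨δ, hδ, h4⟩ := h3 p hp hTp
    refine ⟨δ, hδ, fun L _ _ _ hL x hx hw hpx => ?_⟩
    obtain ⟨K', hK', hG, hc⟩ := hL
    exact h4 L K' hK' hc x hx hw hpx

end Pool.Agent.Results.MP_2194ec_nt.AlmostAbelianPoints
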