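import Pool.Agent.NH29.LE.Wan
import Pool.Agent.TH377.Dyn.Box
import Pool.Agent.TH377.Dyn.Lehmer

/-!
# MP_2194ec_nt: the dynamical Lehmer inequality for points of large local degree

Let `K` be a number field and `d ≥ 2`.  A polynomial of degree `d` over `K` can be written as

  `φ = (c₀ + c₁ x + … + c_d x^d) / b`,  `b, c₀, …, c_d ∈ O_K`.

Let `v` be a prime of `K` which divides `b` but not `c_d`, such that `F = c₀ + … + c_d x^d` is
separable modulo `v` (`SeparableAt`).  For 100% of the vectors `(b, c₀, …, c_d)` there are such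
primes, and they can be chosen with norm greater than any given bound.

Let `L = K(x)` be a number field of degree `D` over `K`.  For a prime `w` of `L` over `v` let `e_w f_w`
be its local degree, so that `∑ e_w f_w = D`.  We prove, for every `β > 0`:

* there are `κ, C > 0` which depend on `φ, v, β` only, such that
  `ĥ_φ(x) ≥ κ (n / D) (D + 1)^(-C/n)` for all `x` and all `n ≥ 2 d^d` such that the primes `w` of
  local degree at least `n` have `∑ e_w f_w ≥ β D`.
  So the exponent tends to the exponent `-1` of the conjecture if the local degrees grow;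
* **Lehmer's inequality:** for every `ε > 0` there is `κ > 0` with `ĥ_φ(x) ≥ κ n / D` for all
  wandering points `x` and all `n ≥ ε log (D + 1)` such that the primes `w` of local degree at least
  `n` have `∑ e_w f_w ≥ β D`;
* **the Bogomolov property:** for every `ε > 0` there is `κ > 0` with `ĥ_φ(x) ≥ κ` for all wandering
  points `x` such that some prime `w` of `L` over `v` has local degree at least `ε D` (for example, if
  `v` is totally ramified or inert in `L`).

All constants are independent of `L`.

Proof.  At a place `V` over `v` the set of bounded orbits is a Cantor set: a point whose first `l`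
iterates have not escaped is determined up to `|b|^l` by the residue classes of these iterates, which
are among the at most `d` roots of `F` modulo `V`.  The decomposition group acts on the conjugates of
`x`, with orbits of length `e_w f_w`, and a subgroup of index at most `d^d` acts trivially on the
residue classes of the roots of `F`.  So a conjugate of `x` of local degree at least `n` lies in a
cluster of at least `n / d^d` conjugates of `x`, which have distance at most `|b|^l` as long as they
have not escaped after `l` steps.  Hence the product of the differences of the conjugates is much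
smaller at `V` than for points which are equidistributed: for all levels `L < l ≤ k` beyond
`L = log_d (D/n)` the clusters contribute, and this is a gain of `β n (k - L)` against the energy of
the equilibrium measure.  At all other places the product of the differences is bounded with a
Vandermonde determinant in the digit polynomials `x^(j₀) φ(x)^(j₁) φ²(x)^(j₂) ⋯`,
`j = j₀ + j₁ d + j₂ d² + ⋯`, with an error of size `O(D log D)`.  The product formula gives the result,
with `k - L` about `log (D + 1) / n`.
-/

set_option autoImplicit false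
set_option linter.style.haveILetI false

open Polynomial NumberField Module Filter Topology IsDedekindDomain

namespace Pool.Agent.Results.MP_2194ec_nt.LargeLocalDegree

/-- The polynomial `(c₁ + c₂ x + … + c_{d+1} x^d) / c₀` over `K`, for a vector `(c₀, …, c_{d+1})` of
integers of `K`. -/
noncomputable def poly {K : Type} [Field K] {d : ℕ} (c : Fin (d + 2) → 𝓞 K) : K[X] :=
  C ((c 0 : K)⁻¹) * ∑ i : Fin (d + 1), C (c i.succ : K) * X ^ (i : ℕ)

/-- The real number `h` is the canonical height of the element `x` of the number field `L` for the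
polynomial `φ` over the subfield `K` of `L`: the limit of `h(φⁿ(x)) / dⁿ`, where `d` is the degree of
`φ` and `h(y)` is the absolute logarithmic Weil height of `y`, that is, Mathlib's (relative)
`Height.logHeight₁ y` divided by `[L : ℚ]`. -/
def IsCanonicalHeight {K L : Type} [Field K] [Field L] [NumberField L] [Algebra K L] (φ : K[X])
    (x : L) (h : ℝ) : Prop :=
  Tendsto (fun n : ℕ => Height.logHeight₁ ((fun y => aeval y φ)^[n] x) /
    ((finrank ℚ L : ℝ) * (φ.natDegree : ℝ) ^ n)) atTop (𝓝 h)

/-- The point `x` has an infinite orbit under `φ`. -/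
def Wandering {K L : Type} [Field K] [Field L] [Algebra K L] (φ : K[X]) (x : L) : Prop :=
  Function.Injective fun n : ℕ => (fun y => aeval y φ)^[n] x

/-- The prime `v` of `K` divides the denominator `c₀ ≠ 0` but not the leading coefficient `c_{d+1}`,
and the numerator `c₁ + c₂ x + … + c_{d+1} x^d` is separable modulo `v`. -/
def SeparableAt {K : Type} [Field K] {d : ℕ} (v : HeightOneSpectrum (𝓞 K))
    (c : Fin (d + 2) → 𝓞 K) : Prop :=
  c 0 ≠ 0 ∧ c 0 ∈ v.asIdeal ∧ c (Fin.last (d + 1)) ∉ v.asIdeal ∧
    (∑ i : Fin (d + 1), C (Ideal.Quotient.mk v.asIdeal (c i.succ)) * X ^ (i : ℕ)).Separable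

/-- The local degree `e f` of a prime ideal `w` of the integers of `L` over `K`. -/
noncomputable def localDegree (K : Type) [Field K] {L : Type} [Field L] [Algebra K L]
    (w : Ideal (𝓞 L)) : ℕ :=
  w.ramificationIdx (𝓞 K) * w.inertiaDeg (𝓞 K)

/-- The sum of the local degrees of the primes of `L` over `v` whose local degree is at least `n`. -/
noncomputable def largePart {K : Type} [Field K] (v : HeightOneSpectrum (𝓞 K)) (L : Type)
    [Field L] [Algebra K L] (n : ℕ) : ℕ :=
  ∑ᶠ (w : Ideal (𝓞 L)) (_ : w ∈ v.asIdeal.primesOver (𝓞 L) ∧ n ≤ localDegree K w),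
    localDegree K w

/-- The properties of the polynomial `φ` at the prime `v` proved here. -/
def LehmerAt {K : Type} [Field K] (v : HeightOneSpectrum (𝓞 K)) (φ : K[X]) : Prop :=
  (∀ β : ℝ, 0 < β → ∃ κ C : ℝ, 0 < κ ∧ 0 < C ∧ ∀ (L : Type) [Field L] [NumberField L]
    [Algebra K L] (x : L), IntermediateField.adjoin K {x} = ⊤ →
    ∀ n : ℕ, 2 * φ.natDegree ^ φ.natDegree ≤ n → β * finrank K L ≤ largePart v L n →
      ∃ h : ℝ, IsCanonicalHeight φ x h ∧
        κ * (n / finrank K L) * ((finrank K L : ℝ) + 1) ^ (-(C / n)) ≤ h) ∧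
  (∀ β ε : ℝ, 0 < β → 0 < ε → ∃ κ : ℝ, 0 < κ ∧ ∀ (L : Type) [Field L] [NumberField L]
    [Algebra K L] (x : L), IntermediateField.adjoin K {x} = ⊤ → Wandering φ x →
    ∀ n : ℕ, ε * Real.log ((finrank K L : ℝ) + 1) ≤ n → β * finrank K L ≤ largePart v L n →
      ∃ h : ℝ, IsCanonicalHeight φ x h ∧ κ * (n / finrank K L) ≤ h) ∧
  (∀ ε : ℝ, 0 < ε → ∃ κ : ℝ, 0 < κ ∧ ∀ (L : Type) [Field L] [NumberField L]
    [Algebra K L] (x : L), IntermediateField.adjoin K {x} = ⊤ → Wandering φ x →
    ∀ w ∈ v.asIdeal.primesOver (𝓞 L), ε * finrank K L ≤ localDegree K w →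
      ∃ h : ℝ, IsCanonicalHeight φ x h ∧ κ ≤ h)

/-- Density zero: for every `ε > 0` there is an ideal `I ≠ 0` such that `E` lies in at most
`ε #(O_K/I)ᴺ` residue classes modulo `I`. -/
def DensityZero {K : Type} [Field K] {N : ℕ} (E : Set (Fin N → 𝓞 K)) : Prop :=
  ∀ ε : ℝ, 0 < ε → ∃ I : Ideal (𝓞 K), I ≠ ⊥ ∧
    (Set.ncard ((fun (t : Fin N → 𝓞 K) i => Ideal.Quotient.mk I (t i)) '' E) : ℝ) ≤
      ε * (Nat.card (𝓞 K ⧸ I) : ℝ) ^ N

/-- The vectors all of whose entries have coordinates of absolute value at most `H` in the integral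
basis `ω`. -/
def Box {K : Type} [Field K] {J : Type} (ω : Module.Basis J ℤ (𝓞 K)) (N H : ℕ) :
    Set (Fin N → 𝓞 K) :=
  {c | ∀ i j, |ω.repr (c i) j| ≤ (H : ℤ)}

/-- The vectors `c = (b, c₀, …, c_d)` for which there is no prime `v` of `K` of norm greater than `B`
such that `φ = (c₀ + … + c_d x^d) / b` has degree `d` and satisfies `SeparableAt` and `LehmerAt` at
`v`. -/
def Exceptional (K : Type) [Field K] [NumberField K] (d B : ℕ) : Set (Fin (d + 2) → 𝓞 K) :=
  {c | ¬ ∃ v : HeightOneSpectrum (𝓞 K), B < Ideal.absNorm v.asIdeal ∧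
    (poly c).natDegree = d ∧ SeparableAt v c ∧ LehmerAt v (poly c)}

section proof

open Pool.Agent.NH29.LE Pool.Agent.TH377.Sup

lemma largePart_eq {K : Type} [Field K] [NumberField K] (v : HeightOneSpectrum (𝓞 K))
    (L : Type) [Field L] [NumberField L] [Algebra K L] (n : ℕ) :
    haveI := v.isMaximal
    largePart v L n = big K v.asIdeal L n := by
  classical
  haveI := v.isMaximal
  have hfin : (v.asIdeal.primesOver (𝓞 L)).Finite :=
    IsDedekindDomain.primesOver_finite (A := 𝓞 K) v.asIdeal (𝓞 L)
  have h1 : {w : Ideal (𝓞 L) | w ∈ v.asIdeal.primesOver (𝓞 L) ∧ n ≤ localDegree K w}.Finite :=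
    hfin.subset fun w hw => hw.1
  unfold largePart big
  have h2 : ∑ᶠ (w : Ideal (𝓞 L)) (_ : w ∈ v.asIdeal.primesOver (𝓞 L) ∧ n ≤ localDegree K w),
      localDegree K w = ∑ w ∈ h1.toFinset, localDegree K w := by
    rw [← finsum_mem_coe_finset]
    refine finsum_congr fun w => ?_
    simp only [Set.Finite.coe_toFinset, Set.mem_ofPred_eq]
  rw [h2]
  symm
  refine Finset.sum_bij (fun w _ => w.1) ?_ ?_ ?_ ?_
  · intro w hw
    rw [Set.Finite.mem_toFinset]
    exact ⟨w.2, (Finset.mem_filter.1 hw).2⟩
  · intro w _ w' _ h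
    exact Subtype.ext h
  · intro w hw
    rw [Set.Finite.mem_toFinset] at hw
    exact ⟨⟨w, hw.1⟩, Finset.mem_filter.2 ⟨Finset.mem_univ _, hw.2⟩, rfl⟩
  · intro w _
    rfl

theorem lehmerAt {K : Type} [Field K] [NumberField K] {d : ℕ} (hd : 2 ≤ d)
    (v : HeightOneSpectrum (𝓞 K)) (c : Fin (d + 2) → 𝓞 K) (h : SeparableAt v c) :
    (poly c).natDegree = d ∧ LehmerAt v (poly c) := by
  have hs : SepAt v c := h
  have hdeg : (poly c).natDegree = d := ply_deg hd v hs
  obtain ⟨C₁, _, hex⟩ := ch_exists hd v hs
  have hex' : ∀ (L : Type) [Field L] [NumberField L] [Algebra K L] (x : L),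
      ∃ r : ℝ, IsCanonicalHeight (poly c) x r := fun L _ _ _ x => by
    obtain ⟨r, hr, _⟩ := hex L x
    exact ⟨r, hr⟩
  refine ⟨hdeg, fun β hβ => ?_, fun β ε hβ hε => ?_, fun ε hε => ?_⟩
  · obtain ⟨κ, hκ, C, hC, h1⟩ := main2 hd v hs β hβ
    refine ⟨κ, C, hκ, hC, fun L _ _ _ x hx n hn hbig => ?_⟩
    obtain ⟨r, hr⟩ := hex' L x
    rw [hdeg] at hn
    rw [largePart_eq] at hbig
    exact ⟨r, hr, h1 L x hx n hn hbig r hr⟩
  · obtain ⟨κ, hκ, h1⟩ := lehmer2 hd v hs β ε hβ hε
    refine ⟨κ, hκ, fun L _ _ _ x hx hw n hn hbig => ?_⟩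
    obtain ⟨r, hr⟩ := hex' L x
    rw [largePart_eq] at hbig
    exact ⟨r, hr, h1 L x hx hw n hn hbig r hr⟩
  · obtain ⟨κ, hκ, h1⟩ := bogomolov2 hd v hs ε hε
    refine ⟨κ, hκ, fun L _ _ _ x hx hw w hwv hε' => ?_⟩
    obtain ⟨r, hr⟩ := hex' L x
    exact ⟨r, hr, h1 L x hx hw ⟨w, hwv⟩ hε' r hr⟩

end proof

/-- **The dynamical Lehmer inequality for points of large local degree.**  Let `K` be a number field
and `d ≥ 2`.

1. Let `φ = (c₀ + … + c_d x^d) / b` have separable reduction of the numerator at a prime `v` of `K`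
   which divides `b` but not `c_d`.  Then `φ` satisfies `LehmerAt v φ`: lower bounds for the canonical
   heights of the points `x` whose local degrees over `v` are large: `κ (n / D) (D + 1)^(-C/n)` with
   `D = [K(x) : K]` if the local degrees are at least `n ≥ 2 d^d` (for the primes over `v` which make
   up a positive proportion `β`), Lehmer's inequality `κ n / D` if `n ≥ ε log (D + 1)` and `x` is
   wandering, and a positive constant if one of the local degrees is at least `ε D` and `x` is
   wandering.
2. For every `B`, this holds at some prime `v` of norm greater than `B` for all vectors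
   `(b, c₀, …, c_d)` of integers of `K` outside a set of density zero, in residue classes and in
   boxes. -/
theorem result (K : Type) [Field K] [NumberField K] (d : ℕ) (hd : 2 ≤ d) :
    (∀ (v : HeightOneSpectrum (𝓞 K)) (c : Fin (d + 2) → 𝓞 K), SeparableAt v c →
      (poly c).natDegree = d ∧ LehmerAt v (poly c)) ∧
    ∀ B : ℕ, DensityZero (Exceptional K d B) ∧
      ∀ (J : Type) [Fintype J] (ω : Module.Basis J ℤ (𝓞 K)),
        Tendsto (fun H : ℕ => ((Exceptional K d B ∩ Box ω (d + 2) H).ncard : ℝ) /
          ((Box ω (d + 2) H).ncard : ℝ)) atTop (𝓝 0) := by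
  refine ⟨fun v c h => lehmerAt hd v c h, fun B => ?_⟩
  have key : Pool.Agent.TH120.Sec.DZ (d + 2) (Exceptional K d B) := by
    have hM0 : ((B.factorial : ℕ) : 𝓞 K) ≠ 0 := by
      exact_mod_cast B.factorial_ne_zero
    refine Pool.Agent.TH377.Dyn.DZ.mono (Pool.Agent.TH377.Dyn.dz_prime K d hd _ hM0) ?_
    intro c hc hex
    obtain ⟨v, hDv, h1, h2, h3⟩ := hex
    apply hc
    have h0 : c 0 ≠ 0 := by
      intro h0
      apply h2
      rw [h0]
      exact zero_mem _
    have hsep : SeparableAt v c := by
      refine ⟨h0, h1, h3.1, ?_⟩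
      haveI := v.isMaximal
      letI := Ideal.Quotient.field v.asIdeal
      haveI : Finite (𝓞 K ⧸ v.asIdeal) := Ideal.finiteQuotientOfFreeOfNeBot v.asIdeal v.ne_bot
      have h4 : Irreducible (∑ i : Fin (d + 1),
          C (Ideal.Quotient.mk v.asIdeal (c i.succ)) * X ^ (i : ℕ)) := h3.2
      exact PerfectField.separable_of_irreducible h4
    have h5 := lehmerAt hd v c hsep
    have hN := Pool.Agent.TH377.Dyn.lt_norm v B hDv
    exact ⟨v, hN, h5.1, hsep, h5.2⟩
  exact ⟨key, fun J _ ω => Pool.Agent.TH377.Dyn.box_tendsto _ key ω⟩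

end Pool.Agent.Results.MP_2194ec_nt.LargeLocalDegree
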